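import Pool.Agent.E8helper32.SQ.Stm2

/-!
# Project SQ2 (poster helper32): piece `S_COORD`
-/

set_option autoImplicit false

open Complex Metric Set Filter Topology

namespace Pool.Agent.E8helper63.SQ

open Pool.Agent.E8helper32.SQ

/-- local inverse of an analytic function -/
theorem exists_inv {g : ℂ → ℂ} (hg : AnalyticAt ℂ g 0) (hg0 : g 0 = 0) (hd : deriv g 0 ≠ 0) :
    ∃ Y : ℂ → ℂ, AnalyticAt ℂ Y 0 ∧ Y 0 = 0 ∧ (∀ᶠ z in 𝓝 (0 : ℂ), g (Y z) = z) ∧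
      ∀ᶠ y in 𝓝 (0 : ℂ), Y (g y) = y := by
  have h1 := hg.analyticAt_localInverse hd
  have h2 := HasStrictDerivAt.eventually_right_inverse hg.hasStrictDerivAt hd
  have h3 := HasStrictDerivAt.eventually_left_inverse hg.hasStrictDerivAt hd
  have h4 := h3.self_of_nhds
  rw [hg0] at h1 h2 h4
  exact ⟨_, h1, h4, h2, h3⟩

/-- the local form of a meromorphic function, in the coordinate `y = w - x` -/
theorem local_form {χ : ℂ → ℂ} {x : ℂ} (hχ : MeromorphicAt χ x)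
    (hn : ¬ ∃ c, ∀ᶠ w in 𝓝[≠] x, χ w = c) :
    ∃ (m : ℕ) (c : ℂ → ℂ), 0 < m ∧ AnalyticAt ℂ c x ∧ c x ≠ 0 ∧
      ((∃ s1 : ℂ, ∀ᶠ w in 𝓝[≠] x, χ w = s1 + (w - x) ^ m * c w) ∨
        ∀ᶠ w in 𝓝[≠] x, χ w = ((w - x) ^ m)⁻¹ * c w) := by
  have htop : meromorphicOrderAt χ x ≠ ⊤ := by
    rw [ne_eq, meromorphicOrderAt_eq_top_iff]
    exact fun h => hn ⟨0, h⟩
  obtain ⟨n, hn'⟩ := WithTop.ne_top_iff_exists.1 htop
  obtain ⟨g, hg, hg0, hgχ⟩ := (meromorphicOrderAt_eq_int_iff hχ).1 hn'.symm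
  rcases lt_or_ge n 0 with hneg | hpos
  · obtain ⟨m, hm⟩ : ∃ m : ℕ, n = -m := ⟨n.natAbs, by omega⟩
    refine ⟨m, g, by omega, hg, hg0, Or.inr ?_⟩
    filter_upwards [hgχ] with w hw
    rw [hw, hm, zpow_neg, zpow_natCast, smul_eq_mul]
  · obtain ⟨k, hk⟩ : ∃ k : ℕ, n = k := ⟨n.natAbs, by omega⟩
    set f : ℂ → ℂ := fun w => (w - x) ^ k * g w with hf
    have hfa : AnalyticAt ℂ f x :=
      ((analyticAt_id.sub analyticAt_const).pow k).mul hg
    have hfχ : ∀ᶠ w in 𝓝[≠] x, χ w = f w := by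
      filter_upwards [hgχ] with w hw
      rw [hw, hk, zpow_natCast, smul_eq_mul]
    have hf1 : AnalyticAt ℂ (fun w => f w - f x) x := hfa.sub analyticAt_const
    have hne : ¬ ∀ᶠ w in 𝓝 x, f w - f x = 0 := by
      intro h
      apply hn
      refine ⟨f x, ?_⟩
      filter_upwards [hfχ, h.filter_mono nhdsWithin_le_nhds] with w h1 h2
      rw [h1]
      exact sub_eq_zero.1 h2
    obtain ⟨m, c, hc, hc0, hfc⟩ := hf1.exists_eventuallyEq_pow_smul_nonzero_iff.2 hne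
    refine ⟨m, c, ?_, hc, hc0, Or.inl ⟨f x, ?_⟩⟩
    · rcases Nat.eq_zero_or_pos m with h0 | h0
      · exfalso
        have := hfc.self_of_nhds
        rw [h0] at this
        simp only [sub_self, pow_zero, one_smul] at this
        exact hc0 this.symm
      · exact h0
    · filter_upwards [hfχ, hfc.filter_mono nhdsWithin_le_nhds] with w h1 h2
      rw [h1]
      rw [smul_eq_mul] at h2
      linear_combination h2

/-- logarithms -/
theorem exists_log {c : ℂ → ℂ} {x : ℂ} (hc : AnalyticAt ℂ c x) (h0 : c x ≠ 0) {σ : ℂ}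
    (hσ : σ ≠ 0) : ∃ b : ℂ → ℂ, AnalyticAt ℂ b 0 ∧ ∀ᶠ y in 𝓝 (0 : ℂ), c (x + y) = exp (σ * b y) := by
  have hadd : AnalyticAt ℂ (fun y : ℂ => x + y) 0 := analyticAt_const.add analyticAt_id
  have hc' : AnalyticAt ℂ (fun y => c (x + y)) 0 := by
    have h1 : AnalyticAt ℂ c (x + 0) := by rwa [add_zero]
    exact AnalyticAt.fun_comp (g := c) (f := fun y : ℂ => x + y) h1 hadd
  have hdiv : AnalyticAt ℂ (fun y => c (x + y) / c x) 0 := hc'.div_const
  have hs : (fun y => c (x + y) / c x) 0 ∈ slitPlane := by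
    simp only [add_zero]
    rw [div_self h0]
    exact one_mem_slitPlane
  refine ⟨fun y => (log (c (x + y) / c x) + log (c x)) / σ, ?_, ?_⟩
  · exact ((hdiv.clog hs).add analyticAt_const).div_const
  · have h1 : ∀ᶠ y in 𝓝 (0 : ℂ), c (x + y) / c x ∈ slitPlane :=
      hdiv.continuousAt.eventually (isOpen_slitPlane.eventually_mem hs)
    filter_upwards [h1] with y hy
    rw [mul_div_cancel₀ _ hσ, exp_add, exp_log h0, exp_log (slitPlane_ne_zero hy),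
      div_mul_cancel₀ _ h0]

/-- the coordinates -/
theorem coords {b : ℂ → ℂ} (hb : AnalyticAt ℂ b 0) (L : ℝ) (Q : ℂ → Prop)
    (hQ : ∀ᶠ y in 𝓝 (0 : ℂ), y ≠ 0 → Q y) :
    ∃ (L2 L3 : ℝ) (β : ℂ → ℂ) (Y : ℂ → ℂ),
      DifferentiableOn ℂ β (ball 0 (Real.exp L2)) ∧ DifferentiableOn ℂ b (ball 0 (Real.exp L3)) ∧
      (∀ s ∈ HP L2, s + β (exp s) ∈ HP L) ∧
      (∀ τ ∈ HP L3, τ ∈ HP L ∧ τ + b (exp τ) ∈ HP L2 ∧
        τ + b (exp τ) + β (exp (τ + b (exp τ))) = τ) ∧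
      ∀ s ∈ HP L2, exp (s + β (exp s)) = Y (exp s) ∧ Y (exp s) * exp (b (Y (exp s))) = exp s ∧
        Q (Y (exp s)) := by
  set g : ℂ → ℂ := fun y => y * exp (b y) with hg
  have hga : AnalyticAt ℂ g 0 := analyticAt_id.mul hb.cexp
  have hg0 : g 0 = 0 := by simp [hg]
  have hgd : deriv g 0 ≠ 0 := by
    have h1 : HasDerivAt g (1 * exp (b 0) + 0 * (exp (b 0) * deriv b 0)) 0 :=
      (hasDerivAt_id (0 : ℂ)).mul (hb.differentiableAt.hasDerivAt.cexp)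
    rw [h1.deriv, one_mul, zero_mul, add_zero]
    exact exp_ne_zero _
  obtain ⟨Y, hY, hY0, hgY, hYg⟩ := exists_inv hga hg0 hgd
  -- the ball for `b`
  have hbev : ∀ᶠ y in 𝓝 (0 : ℂ), (y ≠ 0 → Q y) ∧ DifferentiableAt ℂ b y :=
    hQ.and (hb.eventually_analyticAt.mono fun y hy => hy.differentiableAt)
  -- the ball for `Y`
  have hYt : Tendsto Y (𝓝 0) (𝓝 0) := by
    have := hY.continuousAt.tendsto
    rwa [hY0] at this
  have hLn : ∀ᶠ y in 𝓝 (0 : ℂ), ‖y‖ < Real.exp L := by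
    filter_upwards [ball_mem_nhds (0 : ℂ) (Real.exp_pos L)] with y hy
    rwa [mem_ball_zero_iff] at hy
  have h1 : ∀ᶠ z in 𝓝 (0 : ℂ), ((Y z ≠ 0 → Q (Y z)) ∧ DifferentiableAt ℂ b (Y z)) ∧
      ‖Y z‖ < Real.exp L ∧ g (Y z) = z ∧ DifferentiableAt ℂ Y z :=
    (hYt.eventually hbev).and ((hYt.eventually hLn).and
      (hgY.and (hY.eventually_analyticAt.mono fun y hy => hy.differentiableAt)))
  obtain ⟨r1, hr1, hR1⟩ := Metric.eventually_nhds_iff_ball.1 h1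
  have hgt : Tendsto g (𝓝 0) (𝓝 0) := by
    have := hga.continuousAt.tendsto
    rwa [hg0] at this
  have hgn : ∀ᶠ y in 𝓝 (0 : ℂ), g y ∈ ball (0 : ℂ) r1 := hgt (ball_mem_nhds _ hr1)
  have h2 : ∀ᶠ y in 𝓝 (0 : ℂ), DifferentiableAt ℂ b y ∧ ‖y‖ < Real.exp L ∧
      g y ∈ ball (0 : ℂ) r1 ∧ Y (g y) = y :=
    (hb.eventually_analyticAt.mono fun y hy => hy.differentiableAt).and (hLn.and (hgn.and hYg))
  obtain ⟨r2, hr2, hR2⟩ := Metric.eventually_nhds_iff_ball.1 h2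
  have hmem : ∀ (r : ℝ), 0 < r → ∀ s ∈ HP (Real.log r), exp s ∈ ball (0 : ℂ) r := by
    intro r hr s hs
    rw [mem_ball_zero_iff, norm_exp]
    exact (Real.lt_log_iff_exp_lt hr).1 hs
  have hkey : ∀ s ∈ HP (Real.log r1), exp (s + -b (Y (exp s))) = Y (exp s) := by
    intro s hs
    have h3 : Y (exp s) * exp (b (Y (exp s))) = exp s := (hR1 _ (hmem r1 hr1 s hs)).2.2.1
    rw [exp_add, exp_neg]
    generalize Y (exp s) = y at h3 ⊢
    rw [← h3, mul_assoc, mul_inv_cancel₀ (exp_ne_zero _), mul_one]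
  refine ⟨Real.log r1, Real.log r2, fun z => -b (Y z), Y, ?_, ?_, ?_, ?_, ?_⟩
  · rw [Real.exp_log hr1]
    intro z hz
    obtain ⟨⟨-, h3⟩, -, -, h4⟩ := hR1 z hz
    exact ((DifferentiableAt.comp (g := b) (f := Y) z h3 h4).neg).differentiableWithinAt
  · rw [Real.exp_log hr2]
    intro y hy
    exact (hR2 y hy).1.differentiableWithinAt
  · intro s hs
    show (s + -b (Y (exp s))).re < L
    rw [← Real.exp_lt_exp, ← norm_exp, hkey s hs]
    exact (hR1 _ (hmem r1 hr1 s hs)).2.1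
  · intro τ hτ
    obtain ⟨-, h3, h4, h5⟩ := hR2 _ (hmem r2 hr2 τ hτ)
    have h6 : exp (τ + b (exp τ)) = g (exp τ) := by rw [exp_add]
    refine ⟨?_, ?_, ?_⟩
    · show τ.re < L
      rwa [norm_exp, Real.exp_lt_exp] at h3
    · show (τ + b (exp τ)).re < Real.log r1
      rw [Real.lt_log_iff_exp_lt hr1, ← norm_exp, h6]
      rwa [mem_ball_zero_iff] at h4
    · simp only
      rw [h6, h5]
      ring
  · intro s hs
    obtain ⟨⟨h3, -⟩, -, h4, -⟩ := hR1 _ (hmem r1 hr1 s hs)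
    refine ⟨hkey s hs, h4, h3 ?_⟩
    rw [← hkey s hs]
    exact exp_ne_zero _

/-- **S_COORD.** -/
theorem coord2 : S_COORD := by
  intro χ x L hχ hn
  obtain ⟨m, c, hm, hc, hc0, hform⟩ := local_form hχ hn
  have hmC : (m : ℂ) ≠ 0 := Nat.cast_ne_zero.2 hm.ne'
  -- transfer of punctured neighbourhoods
  have htr : ∀ P : ℂ → Prop, (∀ᶠ w in 𝓝[≠] x, P w) → ∀ᶠ y in 𝓝 (0 : ℂ), y ≠ 0 → P (x + y) := by
    intro P hP
    rw [eventually_nhdsWithin_iff] at hP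
    have hadd : Tendsto (fun y : ℂ => x + y) (𝓝 0) (𝓝 x) := by
      have : Tendsto (fun y : ℂ => x + y) (𝓝 0) (𝓝 (x + 0)) :=
        (continuous_const.add continuous_id).tendsto 0
      rwa [add_zero] at this
    filter_upwards [hadd.eventually hP] with y hy hy0
    apply hy
    simpa using hy0
  rcases hform with ⟨s1, hs1⟩ | hpole
  · obtain ⟨b, hb, hcb⟩ := exists_log hc hc0 hmC
    obtain ⟨L2, L3, β, Y, h1, h2, h3, h4, h5⟩ := coords hb L
      (fun y => χ (x + y) = s1 + y ^ m * exp (m * b y)) (by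
        filter_upwards [htr _ hs1, hcb] with y hy1 hy2 hy0
        rw [hy1 hy0, add_sub_cancel_left, hy2])
    refine ⟨m, L2, L3, β, b, hm, h1, h2, h3, h4, Or.inl ⟨s1, ?_⟩⟩
    intro s hs
    obtain ⟨h6, h7, h8⟩ := h5 s hs
    rw [h6, h8, exp_nat_mul s m]
    generalize Y (exp s) = y at h7 ⊢
    rw [← h7, mul_pow, exp_nat_mul (b y) m]
  · obtain ⟨b, hb, hcb⟩ := exists_log hc hc0 (neg_ne_zero.2 hmC)
    obtain ⟨L2, L3, β, Y, h1, h2, h3, h4, h5⟩ := coords hb L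
      (fun y => χ (x + y) = (y ^ m)⁻¹ * exp (-m * b y)) (by
        filter_upwards [htr _ hpole, hcb] with y hy1 hy2 hy0
        rw [hy1 hy0, add_sub_cancel_left, hy2])
    refine ⟨m, L2, L3, β, b, hm, h1, h2, h3, h4, Or.inr ?_⟩
    intro s hs
    obtain ⟨h6, h7, h8⟩ := h5 s hs
    rw [h6, h8, exp_neg, exp_nat_mul s m]
    generalize Y (exp s) = y at h7 ⊢
    rw [← h7, mul_pow, neg_mul, exp_neg, exp_nat_mul (b y) m, mul_inv]

end Pool.Agent.E8helper63.SQ
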