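import Pool.Agent.E8helper32.SQ.Stm2
import Pool.Agent.E8helper32.SA.Disc
import Pool.Agent.E8helper32.SA.Glue

/-!
# Project SQ2 (poster helper32): piece `S_DICH`
-/

set_option autoImplicit false

open Complex Metric Set Filter Topology

namespace Pool.Agent.E8helper63.SQ

open Pool.Agent.E8helper32.SQ
open Pool.Agent.E8helper32.SA (per log_eq log_lift eqOn_convex nat_mul_re)

/-- a left inverse near a point with nonzero derivative -/
theorem loc_left {f : ℂ → ℂ} {a : ℂ} (hf : AnalyticAt ℂ f a) (h : deriv f a ≠ 0) :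
    ∃ g : ℂ → ℂ, ∀ᶠ x in 𝓝 a, g (f x) = x := by
  have h1 : HasStrictDerivAt f (deriv f a) a :=
    (hf.contDiffAt (n := 1)).hasStrictDerivAt one_ne_zero
  exact ⟨_, (h1.hasStrictFDerivAt_equiv h).eventually_left_inverse⟩

theorem HP_open (L : ℝ) : IsOpen (HP L) := isOpen_Iio.preimage continuous_re

theorem HP_convex (L : ℝ) : Convex ℝ (HP L) := convex_halfSpace_re_lt L

/-- **S_DICH.** -/
theorem dich : S_DICH := by
  classical
  intro V ψ H L m hV hψ hm hH hHV hf
  have hmC : (m : ℂ) ≠ 0 := Nat.cast_ne_zero.2 hm.ne'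
  have hmR : (0 : ℝ) < m := Nat.cast_pos.2 hm
  have hHPo := HP_open L
  -- Fact 1
  have F1 : ∀ s ∈ HP L, ∀ t ∈ HP L, H s = H t → exp (m * s) = exp (m * t) := by
    intro s hs t ht hst
    rcases hf with ⟨s1, h⟩ | h
    · have h1 := h s hs
      rw [hst, h t ht] at h1
      exact (add_left_cancel h1).symm
    · have h1 := h s hs
      rw [hst, h t ht, exp_neg, exp_neg] at h1
      exact (inv_injective h1).symm
  have F1' : ∀ s ∈ HP L, ∀ t ∈ HP L, H s = H t → ∃ k : ℤ, s = t + k * (2 * Real.pi * I) / m := by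
    intro s hs t ht hst
    obtain ⟨k, hk⟩ := exp_eq_exp_iff_exists_int.1 (F1 s hs t ht hst)
    refine ⟨k, ?_⟩
    field_simp
    linear_combination hk
  -- periods
  have hre : ∀ k : ℤ, ((k : ℂ) * (2 * Real.pi * I) / m).re = 0 := by
    intro k
    have h1 : ((k : ℂ) * (2 * Real.pi * I) / m) = ((k * (2 * Real.pi) / m : ℝ) : ℂ) * I := by
      push_cast; ring
    rw [h1, re_ofReal_mul, I_re, mul_zero]
  have hmemk : ∀ (k : ℤ) (s : ℂ), s ∈ HP L → s + k * (2 * Real.pi * I) / m ∈ HP L := by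
    intro k s hs
    show (s + k * (2 * Real.pi * I) / m).re < L
    rw [add_re, hre, add_zero]
    exact hs
  have hexpk : ∀ (k : ℤ) (s : ℂ), exp (m * (s + k * (2 * Real.pi * I) / m)) = exp (m * s) := by
    intro k s
    rw [exp_eq_exp_iff_exists_int]
    refine ⟨k, ?_⟩
    field_simp
  have hfk : ∀ (k : ℤ) (s : ℂ), s ∈ HP L → ψ (H (s + k * (2 * Real.pi * I) / m)) = ψ (H s) := by
    intro k s hs
    rcases hf with ⟨s1, h⟩ | h
    · rw [h _ (hmemk k s hs), h _ hs, hexpk]
    · rw [h _ (hmemk k s hs), h _ hs, exp_neg, exp_neg, hexpk]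
  -- Fact 2
  have F2 : ∀ (k : ℤ) (t : ℂ), t ∈ HP L → H (t + k * (2 * Real.pi * I) / m) = H t →
      ∀ s ∈ HP L, H (s + k * (2 * Real.pi * I) / m) = H s := by
    intro k t ht hkt
    have hHt : DifferentiableAt ℂ H t := hH.differentiableAt (hHPo.mem_nhds ht)
    have hψp : DifferentiableAt ℂ ψ (H t) := hψ.differentiableAt (hV.mem_nhds (hHV t ht))
    have hder : deriv (fun s => ψ (H s)) t ≠ 0 := by
      rcases hf with ⟨s1, h⟩ | h
      · have h1 : (fun s => ψ (H s)) =ᶠ[𝓝 t] fun s => s1 + exp (m * s) := by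
          filter_upwards [hHPo.mem_nhds ht] with s hs using h s hs
        rw [h1.deriv_eq]
        have h2 : HasDerivAt (fun s : ℂ => s1 + exp (m * s)) (exp (m * t) * (m * 1)) t :=
          (((hasDerivAt_id t).const_mul (m : ℂ)).cexp).const_add s1
        rw [h2.deriv]
        exact mul_ne_zero (exp_ne_zero _) (by simpa using hmC)
      · have h1 : (fun s => ψ (H s)) =ᶠ[𝓝 t] fun s => exp (-(m * s)) := by
          filter_upwards [hHPo.mem_nhds ht] with s hs using h s hs
        rw [h1.deriv_eq]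
        have h2 : HasDerivAt (fun s : ℂ => exp (-(m * s))) (exp (-(m * t)) * (-(m * 1))) t :=
          (((hasDerivAt_id t).const_mul (m : ℂ)).fun_neg).cexp
        rw [h2.deriv]
        exact mul_ne_zero (exp_ne_zero _) (by simpa using hmC)
    have hψd : deriv ψ (H t) ≠ 0 := by
      intro h0
      apply hder
      have := (hψp.hasDerivAt.comp t hHt.hasDerivAt).deriv
      rw [h0, zero_mul] at this
      exact this
    obtain ⟨g, hg⟩ := loc_left (hψ.analyticAt (hV.mem_nhds (hHV t ht))) hψd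
    have hshift : DifferentiableOn ℂ (fun s => H (s + k * (2 * Real.pi * I) / m)) (HP L) := by
      intro s hs
      have h1 : DifferentiableAt ℂ H (s + k * (2 * Real.pi * I) / m) :=
        hH.differentiableAt (hHPo.mem_nhds (hmemk k s hs))
      exact (DifferentiableAt.comp (g := H) (f := fun s => s + k * (2 * Real.pi * I) / m) s h1
        (differentiableAt_id.add_const _)).differentiableWithinAt
    have hc1 : Tendsto (fun s => H (s + k * (2 * Real.pi * I) / m)) (𝓝 t) (𝓝 (H t)) := by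
      have := (hshift.differentiableAt (hHPo.mem_nhds ht)).continuousAt.tendsto
      rwa [hkt] at this
    have hc2 : Tendsto H (𝓝 t) (𝓝 (H t)) := hHt.continuousAt
    refine eqOn_convex (HP_convex L) hHPo hshift hH ht ?_
    filter_upwards [hc1.eventually hg, hc2.eventually hg, hHPo.mem_nhds ht] with s h1 h2 hs
    rw [← h1, ← h2, hfk k s hs]
  by_cases hinj : InjOn H (HP L)
  · exact Or.inl hinj
  right
  -- the group of periods
  let P : AddSubgroup ℤ :=
    { carrier := {k | ∀ s ∈ HP L, H (s + k * (2 * Real.pi * I) / m) = H s}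
      zero_mem' := by
        intro s _
        simp
      add_mem' := by
        intro a b ha hb s hs
        have h1 : s + ((a + b : ℤ) : ℂ) * (2 * Real.pi * I) / m =
            (s + a * (2 * Real.pi * I) / m) + b * (2 * Real.pi * I) / m := by
          push_cast; ring
        rw [h1, hb _ (hmemk a s hs), ha s hs]
      neg_mem' := by
        intro a ha s hs
        have h1 := ha _ (hmemk (-a) s hs)
        rw [← h1]
        congr 1
        push_cast
        ring }
  obtain ⟨a, ha⟩ := Int.subgroup_cyclic P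
  have hmem : ∀ k : ℤ, k ∈ P ↔ a ∣ k := by
    intro k
    rw [ha, AddSubgroup.mem_closure_singleton]
    constructor
    · rintro ⟨n, rfl⟩
      exact ⟨n, by rw [smul_eq_mul, mul_comm]⟩
    · rintro ⟨n, rfl⟩
      exact ⟨n, by rw [smul_eq_mul, mul_comm]⟩
  have ha0 : a ≠ 0 := by
    intro h0
    apply hinj
    intro s hs t ht hst
    obtain ⟨k, hk⟩ := F1' s hs t ht hst
    have h1 : k ∈ P := F2 k t ht (by rw [← hk]; exact hst)
    rw [hmem, h0, zero_dvd_iff] at h1
    rw [hk, h1]
    simp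
  set j : ℕ := a.natAbs with hj
  have hj0 : 0 < j := Int.natAbs_pos.2 ha0
  have hjC : (j : ℂ) ≠ 0 := Nat.cast_ne_zero.2 hj0.ne'
  have hjR : (0 : ℝ) < j := Nat.cast_pos.2 hj0
  have hmemj : ∀ k : ℤ, k ∈ P ↔ (j : ℤ) ∣ k := by
    intro k
    rw [hmem, hj, Int.natAbs_dvd]
  have hjP : (j : ℤ) ∈ P := (hmemj _).2 dvd_rfl
  -- the function `G`
  set G : ℂ → ℂ := fun τ => H (τ / m) with hG
  have hdiv : ∀ τ : ℂ, τ.re ∈ Iio (m * L) → τ / m ∈ HP L := by
    intro τ hτ
    show (τ / m).re < L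
    rw [div_natCast_re, div_lt_iff₀ hmR, mul_comm L]
    exact hτ
  have hGd : DifferentiableOn ℂ G (re ⁻¹' Iio (m * L)) := by
    intro τ hτ
    have h1 : DifferentiableAt ℂ H (τ / m) := hH.differentiableAt (hHPo.mem_nhds (hdiv τ hτ))
    exact (DifferentiableAt.comp (g := H) (f := fun τ : ℂ => τ / m) τ h1
      (differentiableAt_id.div_const _)).differentiableWithinAt
  have hGp : ∀ τ : ℂ, τ.re ∈ Iio (m * L) → G (τ + per j) = G τ := by
    intro τ hτ
    have h1 := hjP (τ / m) (hdiv τ hτ)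
    simp only [hG]
    rw [← h1]
    congr 1
    unfold per
    push_cast
    ring
  have hball : ∀ x ∈ ball (0 : ℂ) (Real.exp (m * L / j)) \ {0},
      x ≠ 0 ∧ (j * log x).re ∈ Iio (m * L) := by
    rintro x ⟨hx1, hx2⟩
    have hx0 : x ≠ 0 := hx2
    refine ⟨hx0, ?_⟩
    rw [mem_ball_zero_iff] at hx1
    rw [nat_mul_re, log_re, mem_Iio, mul_comm, ← lt_div_iff₀ hjR]
    exact (Real.log_lt_iff_lt_exp (norm_pos_iff.2 hx0)).2 hx1
  refine ⟨j, fun x => G (j * log x), hj0, ?_, ?_, ?_⟩
  · intro x hx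
    obtain ⟨hx0, hx1⟩ := hball x hx
    exact (log_lift isOpen_Iio hGd hGp hx0 hx1).differentiableWithinAt
  · intro x hx y hy hxy
    obtain ⟨hx0, hx1⟩ := hball x hx
    obtain ⟨hy0, hy1⟩ := hball y hy
    simp only [hG] at hxy
    obtain ⟨k, hk⟩ := F1' _ (hdiv _ hx1) _ (hdiv _ hy1) hxy
    have h1 : k ∈ P := F2 k _ (hdiv _ hy1) (by rw [← hk]; exact hxy)
    obtain ⟨l, hl⟩ := (hmemj k).1 h1
    have h2 : log x = log y + l * (2 * Real.pi * I) := by
      rw [hl] at hk
      push_cast at hk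
      field_simp at hk
      linear_combination hk
    rw [← exp_log hx0, ← exp_log hy0, exp_eq_exp_iff_exists_int]
    exact ⟨l, h2⟩
  · intro s hs
    have h1 : (j * (m * s / j) : ℂ) = m * s := by field_simp
    have h2 : (j * (m * s / j) : ℂ).re ∈ Iio (m * L) := by
      rw [h1, nat_mul_re]
      exact mul_lt_mul_of_pos_left hs hmR
    have h3 := log_eq hGp (a := log (exp (m * s / j))) (b := m * s / j)
      (exp_log (exp_ne_zero _)) h2
    show H s = G (j * log (exp (m * s / j)))
    rw [h3, h1]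
    simp only [hG]
    rw [mul_div_cancel_left₀ _ hmC]

end Pool.Agent.E8helper63.SQ
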