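import Pool.Agent.E8helper32.SQ.Stm

set_option autoImplicit false

open Complex MeasureTheory Metric Set Filter Topology

namespace Pool.Agent.E8helper63.SQ

open Pool.Agent.E8helper32.SQ

/-- the terms of the kernel -/
noncomputable def tm (a : ℝ) (l : ℕ) (y : ℂ) : ℂ :=
  (-(a : ℂ)) ^ (l + 1) * y ^ l / (l.factorial : ℂ) ^ 2

/-- the majorant -/
noncomputable def mj (a : ℝ) (l : ℕ) : ℝ := a ^ (l + 1) / (l.factorial : ℝ)

lemma mj_nonneg {a : ℝ} (ha : 0 < a) (l : ℕ) : 0 ≤ mj a l := by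
  unfold mj; positivity

lemma mj_summable (a : ℝ) : Summable (mj a) := by
  have := (Real.summable_pow_div_factorial a).mul_left a
  refine this.congr fun l => ?_
  unfold mj
  rw [pow_succ]; ring

lemma tm_norm {a : ℝ} (ha : 0 < a) (l : ℕ) (y : ℂ) : ‖tm a l y‖ ≤ mj a l * ‖y‖ ^ l := by
  unfold tm mj
  rw [norm_div, norm_mul, norm_pow, norm_pow, norm_pow, norm_neg, Complex.norm_real,
    Real.norm_of_nonneg ha.le, Complex.norm_natCast]
  have h1 : (1 : ℝ) ≤ l.factorial := by exact_mod_cast Nat.one_le_iff_ne_zero.mpr (Nat.factorial_ne_zero l)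
  have h2 : (l.factorial : ℝ) ≤ (l.factorial : ℝ) ^ 2 := by nlinarith
  rw [div_mul_eq_mul_div]
  exact div_le_div_of_nonneg_left (by positivity) (by positivity) h2

lemma tm_norm' {a : ℝ} (ha : 0 < a) (l : ℕ) {y : ℂ} (hy : ‖y‖ ≤ 1) : ‖tm a l y‖ ≤ mj a l := by
  refine (tm_norm ha l y).trans ?_
  have : ‖y‖ ^ l ≤ 1 := pow_le_one₀ (norm_nonneg _) hy
  have h0 := mj_nonneg ha l
  nlinarith

lemma Kf_eq (a : ℝ) (y : ℂ) : Kf a y = ∑' l, tm a l y := rfl

lemma Kf_expand {a : ℝ} (ha : 0 < a) {y : ℂ} (hy : ‖y‖ ≤ 1) :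
    ‖Kf a y - (-(a : ℂ) + (a : ℂ) ^ 2 * y)‖ ≤ (∑' l, mj a (l + 2)) * ‖y‖ ^ 2 := by
  have hs : Summable (fun l => tm a l y) :=
    Summable.of_norm_bounded (mj_summable a) (fun l => tm_norm' ha l hy)
  have h1 := hs.sum_add_tsum_nat_add 2
  have h2 : ∑ i ∈ Finset.range 2, tm a i y = -(a : ℂ) + (a : ℂ) ^ 2 * y := by
    simp [Finset.sum_range_succ, tm]
  rw [Kf_eq, ← h1, h2, add_sub_cancel_left]
  have hm : HasSum (fun l => mj a (l + 2) * ‖y‖ ^ 2) ((∑' l, mj a (l + 2)) * ‖y‖ ^ 2) :=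
    (((summable_nat_add_iff 2).mpr (mj_summable a)).hasSum).mul_right _
  refine tsum_of_norm_bounded hm fun l => ?_
  refine (tm_norm ha (l + 2) y).trans ?_
  apply mul_le_mul_of_nonneg_left _ (mj_nonneg ha _)
  rw [pow_add]
  have : ‖y‖ ^ l ≤ 1 := pow_le_one₀ (norm_nonneg _) hy
  have h0 : 0 ≤ ‖y‖ ^ 2 := by positivity
  nlinarith

lemma Kf_cont {a : ℝ} (ha : 0 < a) : ContinuousOn (Kf a) (closedBall 0 1) := by
  have : Kf a = fun y => ∑' l, tm a l y := rfl
  rw [this]
  refine continuousOn_tsum (u := mj a) (fun l => ?_) (mj_summable a) (fun l y hy => ?_)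
  · unfold tm
    fun_prop
  · exact tm_norm' ha l (by simpa using hy)

theorem t_LIM : S_LIM := by
  intro a ha x W U X ε hx hW hU hX hW0 hK hε hε0 hunif
  have ha2 : (0 : ℝ) < a ^ 2 := by positivity
  -- bounds
  obtain ⟨Mx, hMx⟩ := (isCompact_Icc (a := (0 : ℝ)) (b := 1)).exists_bound_of_continuousOn
    hx.continuousOn
  obtain ⟨MW, hMW⟩ := (isCompact_Icc (a := (0 : ℝ)) (b := 1)).exists_bound_of_continuousOn
    hW.continuousOn
  obtain ⟨MU, hMU⟩ := (isCompact_Icc (a := (0 : ℝ)) (b := 1)).exists_bound_of_continuousOn hU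
  have h0m : (0 : ℝ) ∈ Icc (0 : ℝ) 1 := by simp
  have hMx0 : 0 ≤ Mx := (norm_nonneg _).trans (hMx 0 h0m)
  have hMW0 : 0 ≤ MW := (norm_nonneg _).trans (hMW 0 h0m)
  have hMU0 : 0 ≤ MU := (norm_nonneg _).trans (hMU 0 h0m)
  set C : ℝ := ∑' l, mj a (l + 2) with hC
  have hC0 : 0 ≤ C := tsum_nonneg fun l => mj_nonneg ha _
  set K1 : ℝ := a ^ 2 * (Mx * MW) with hK1
  set K2 : ℝ := C * (Mx * (MU + 1)) ^ 2 * MW with hK2
  have hK10 : 0 ≤ K1 := by positivity
  have hK20 : 0 ≤ K2 := by positivity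
  set D : ℂ := ∫ s in (0 : ℝ)..1, x s * U s * W s with hD
  -- main estimate
  have main : ∀ δ : ℝ, 0 < δ → δ ≤ 1 → a ^ 2 * ‖D‖ ≤ (K1 + K2) * δ := by
    intro δ hδ hδ1
    have e1 : ∀ᶠ k in atTop, ∀ s ∈ Icc (0 : ℝ) 1, dist (U s) (X k s / ε k) < δ :=
      Metric.tendstoUniformlyOn_iff.mp hunif δ hδ
    have hpos : 0 < δ / (Mx * (MU + 1) + 1) := by positivity
    have e2 : ∀ᶠ k in atTop, ‖ε k‖ < δ / (Mx * (MU + 1) + 1) := by
      have := (tendsto_zero_iff_norm_tendsto_zero.mp hε0)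
      exact this.eventually (gt_mem_nhds hpos)
    obtain ⟨k, hk1, hk2⟩ := (e1.and e2).exists
    have hεk : ‖ε k‖ ≤ δ := by
      refine hk2.le.trans ?_
      apply div_le_self hδ.le
      have : 0 ≤ Mx * (MU + 1) := by positivity
      linarith
    have hεpos : 0 < ‖ε k‖ := norm_pos_iff.mpr (hε k)
    -- bound for X k
    have hXk : ∀ s ∈ Icc (0 : ℝ) 1, ‖X k s‖ ≤ (MU + 1) * ‖ε k‖ := by
      intro s hs
      have h1 := hk1 s hs
      rw [dist_eq_norm] at h1
      have h2 : ‖X k s / ε k‖ ≤ MU + 1 := by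
        have h3 : X k s / ε k = U s - (U s - X k s / ε k) := by ring
        rw [h3]
        refine (norm_sub_le _ _).trans ?_
        have := hMU s hs
        linarith
      rw [norm_div, div_le_iff₀ hεpos] at h2
      exact h2
    have hy : ∀ s ∈ Icc (0 : ℝ) 1, ‖x s * X k s‖ ≤ Mx * (MU + 1) * ‖ε k‖ := by
      intro s hs
      rw [norm_mul, mul_assoc]
      exact mul_le_mul (hMx s hs) (hXk s hs) (norm_nonneg _) hMx0
    have hy1 : ∀ s ∈ Icc (0 : ℝ) 1, ‖x s * X k s‖ ≤ 1 := by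
      intro s hs
      refine (hy s hs).trans ?_
      have h5 : 0 ≤ Mx * (MU + 1) := by positivity
      have h6 : (Mx * (MU + 1) + 1) * ‖ε k‖ < δ := by
        rw [lt_div_iff₀ (by positivity)] at hk2
        linarith
      have : ‖ε k‖ ≥ 0 := norm_nonneg _
      nlinarith
    -- continuity
    have hxX : ContinuousOn (fun s => x s * X k s) (Icc 0 1) := hx.continuousOn.mul (hX k)
    have hKc : ContinuousOn (fun s => Kf a (x s * X k s)) (Icc 0 1) :=
      (Kf_cont ha).comp hxX (fun s hs => by simpa using hy1 s hs)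
    have u01 : uIcc (0 : ℝ) 1 = Icc 0 1 := uIcc_of_le zero_le_one
    have iK : IntervalIntegrable (fun s => Kf a (x s * X k s) * W s) volume 0 1 := by
      apply ContinuousOn.intervalIntegrable
      rw [u01]; exact hKc.mul hW.continuousOn
    have iW : IntervalIntegrable (fun s => -(a : ℂ) * W s) volume 0 1 := by
      apply ContinuousOn.intervalIntegrable
      exact (continuous_const.mul hW).continuousOn
    have iX : IntervalIntegrable (fun s => (a : ℂ) ^ 2 * (x s * X k s * W s)) volume 0 1 := by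
      apply ContinuousOn.intervalIntegrable
      rw [u01]; exact continuousOn_const.mul (hxX.mul hW.continuousOn)
    have iX' : IntervalIntegrable (fun s => x s * X k s * W s) volume 0 1 := by
      apply ContinuousOn.intervalIntegrable
      rw [u01]; exact hxX.mul hW.continuousOn
    have iU : IntervalIntegrable (fun s => x s * U s * W s) volume 0 1 := by
      apply ContinuousOn.intervalIntegrable
      rw [u01]; exact (hx.continuousOn.mul hU).mul hW.continuousOn
    -- the remainder integral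
    have hR : ∫ s in (0 : ℝ)..1, (Kf a (x s * X k s) - (-(a : ℂ) + (a : ℂ) ^ 2 * (x s * X k s))) *
        W s = -((a : ℂ) ^ 2 * ∫ s in (0 : ℝ)..1, x s * X k s * W s) := by
      have h1 : (fun s => (Kf a (x s * X k s) - (-(a : ℂ) + (a : ℂ) ^ 2 * (x s * X k s))) * W s) =
          fun s => Kf a (x s * X k s) * W s - (-(a : ℂ) * W s +
            (a : ℂ) ^ 2 * (x s * X k s * W s)) := by
        funext s; ring
      rw [h1, intervalIntegral.integral_sub iK (iW.add iX), hK k,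
        intervalIntegral.integral_add iW iX, intervalIntegral.integral_const_mul,
        intervalIntegral.integral_const_mul, hW0]
      ring
    have hRn : ‖(a : ℂ) ^ 2 * ∫ s in (0 : ℝ)..1, x s * X k s * W s‖ ≤ K2 * ‖ε k‖ ^ 2 := by
      rw [← norm_neg, ← hR]
      have := intervalIntegral.norm_integral_le_of_norm_le_const (a := (0 : ℝ)) (b := 1)
        (f := fun s => (Kf a (x s * X k s) - (-(a : ℂ) + (a : ℂ) ^ 2 * (x s * X k s))) * W s)
        (C := K2 * ‖ε k‖ ^ 2) ?_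
      · simpa using this
      · intro s hs
        rw [uIoc_of_le zero_le_one] at hs
        have hs' : s ∈ Icc (0 : ℝ) 1 := ⟨hs.1.le, hs.2⟩
        rw [norm_mul]
        have h1 := Kf_expand ha (hy1 s hs')
        have h2 : ‖x s * X k s‖ ^ 2 ≤ (Mx * (MU + 1) * ‖ε k‖) ^ 2 :=
          pow_le_pow_left₀ (norm_nonneg _) (hy s hs') 2
        have h3 : ‖Kf a (x s * X k s) - (-(a : ℂ) + (a : ℂ) ^ 2 * (x s * X k s))‖ ≤
            C * (Mx * (MU + 1) * ‖ε k‖) ^ 2 :=
          h1.trans (mul_le_mul_of_nonneg_left h2 hC0)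
        refine (mul_le_mul h3 (hMW s hs') (norm_nonneg _) (by positivity)).trans ?_
        rw [hK2]
        apply le_of_eq; ring
    have hmain2 : a ^ 2 * ‖∫ s in (0 : ℝ)..1, x s * X k s * W s‖ ≤ K2 * ‖ε k‖ ^ 2 := by
      rw [norm_mul, norm_pow, Complex.norm_real, Real.norm_of_nonneg ha.le] at hRn
      exact hRn
    -- difference
    have hdiff : ‖D - (∫ s in (0 : ℝ)..1, x s * X k s * W s) / ε k‖ ≤ Mx * MW * δ := by
      have h1 : D - (∫ s in (0 : ℝ)..1, x s * X k s * W s) / ε k =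
          ∫ s in (0 : ℝ)..1, (x s * U s * W s - x s * X k s * W s / ε k) := by
        rw [intervalIntegral.integral_sub iU (iX'.div_const _), intervalIntegral.integral_div]
      rw [h1]
      have := intervalIntegral.norm_integral_le_of_norm_le_const (a := (0 : ℝ)) (b := 1)
        (f := fun s => (x s * U s * W s - x s * X k s * W s / ε k))
        (C := Mx * MW * δ) ?_
      · simpa using this
      · intro s hs
        rw [uIoc_of_le zero_le_one] at hs
        have hs' : s ∈ Icc (0 : ℝ) 1 := ⟨hs.1.le, hs.2⟩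
        have h2 : x s * U s * W s - x s * X k s * W s / ε k =
            x s * W s * (U s - X k s / ε k) := by ring
        show ‖x s * U s * W s - x s * X k s * W s / ε k‖ ≤ _
        rw [h2, norm_mul, norm_mul]
        have h3 := hk1 s hs'
        rw [dist_eq_norm] at h3
        exact mul_le_mul (mul_le_mul (hMx s hs') (hMW s hs') (norm_nonneg _) hMx0) h3.le
          (norm_nonneg _) (by positivity)
    have hfin : a ^ 2 * ‖D‖ ≤ a ^ 2 * (Mx * MW * δ) + K2 * ‖ε k‖ := by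
      have h1 : D = (D - (∫ s in (0 : ℝ)..1, x s * X k s * W s) / ε k) +
          (∫ s in (0 : ℝ)..1, x s * X k s * W s) / ε k := by ring
      have h2 : ‖D‖ ≤ Mx * MW * δ + ‖∫ s in (0 : ℝ)..1, x s * X k s * W s‖ / ‖ε k‖ := by
        conv_lhs => rw [h1]
        refine (norm_add_le _ _).trans ?_
        rw [norm_div]
        linarith
      have h3 : a ^ 2 * (‖∫ s in (0 : ℝ)..1, x s * X k s * W s‖ / ‖ε k‖) ≤ K2 * ‖ε k‖ := by
        rw [← mul_div_assoc, div_le_iff₀ hεpos]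
        refine hmain2.trans (le_of_eq ?_)
        ring
      calc a ^ 2 * ‖D‖ ≤ a ^ 2 * (Mx * MW * δ +
            ‖∫ s in (0 : ℝ)..1, x s * X k s * W s‖ / ‖ε k‖) :=
            mul_le_mul_of_nonneg_left h2 ha2.le
        _ ≤ _ := by rw [mul_add]; linarith
    have h9 : K2 * ‖ε k‖ ≤ K2 * δ := mul_le_mul_of_nonneg_left hεk hK20
    have h10 : a ^ 2 * (Mx * MW * δ) = K1 * δ := by rw [hK1]; ring
    rw [h10] at hfin
    linarith
  -- conclude
  by_contra hne
  have hDpos : 0 < ‖D‖ := norm_pos_iff.mpr hne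
  have hK : 0 < K1 + K2 + 1 := by positivity
  have hq : 0 < a ^ 2 * ‖D‖ / (K1 + K2 + 1) := by positivity
  have h1 := main (min 1 (a ^ 2 * ‖D‖ / (2 * (K1 + K2 + 1)))) (by positivity) (min_le_left _ _)
  have h2 : (K1 + K2) * min 1 (a ^ 2 * ‖D‖ / (2 * (K1 + K2 + 1))) ≤
      (K1 + K2 + 1) * (a ^ 2 * ‖D‖ / (2 * (K1 + K2 + 1))) :=
    mul_le_mul (by linarith) (min_le_right _ _) (by positivity) (by positivity)
  have h3 : (K1 + K2 + 1) * (a ^ 2 * ‖D‖ / (2 * (K1 + K2 + 1))) = a ^ 2 * ‖D‖ / 2 := by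
    field_simp
  have h4 : 0 < a ^ 2 * ‖D‖ := by positivity
  linarith

end Pool.Agent.E8helper63.SQ
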