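import Pool.Agent.E8helper32.SQ.Stm

set_option autoImplicit false

open Complex MeasureTheory Metric Set Filter Topology

namespace Pool.Agent.E8helper63.SQ

open Pool.Agent.E8helper32.SQ

theorem t_STRIP : S_STRIP := by
  intro L T b hT hper hne
  obtain ⟨σ₀, hσ₀, hTσ₀⟩ := hne
  have hopen : IsOpen (HP L) := isOpen_lt Complex.continuous_re continuous_const
  have hconv : Convex ℝ (HP L) := convex_halfSpace_re_lt L
  have hpre : IsPreconnected (HP L) := hconv.isPreconnected
  have han : AnalyticOnNhd ℂ T (HP L) := hT.analyticOnNhd hopen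
  have hpi : 0 < 2 * Real.pi := by positivity
  -- periodicity over the integers
  have hnat : ∀ (n : ℕ) (σ : ℂ), σ ∈ HP L → (T (σ + n * (2 * Real.pi * I)) = b ↔ T σ = b) := by
    intro n
    induction n with
    | zero => intro σ _; simp
    | succ n ih =>
      intro σ hσ
      have h1 : σ + n * (2 * Real.pi * I) ∈ HP L := by
        have : (σ + n * (2 * Real.pi * I)).re = σ.re := by simp
        show (σ + n * (2 * Real.pi * I)).re < L
        rw [this]; exact hσ
      have h2 := hper _ h1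
      rw [← ih σ hσ, ← h2]
      push_cast
      ring_nf
  have hint : ∀ (n : ℤ) (σ : ℂ), σ ∈ HP L → (T (σ + n * (2 * Real.pi * I)) = b ↔ T σ = b) := by
    intro n σ hσ
    rcases Int.eq_nat_or_neg n with ⟨m, rfl | rfl⟩
    · simpa using hnat m σ hσ
    · have h1 : σ + ((-(m : ℤ) : ℤ) : ℂ) * (2 * Real.pi * I) ∈ HP L := by
        have : (σ + ((-(m : ℤ) : ℤ) : ℂ) * (2 * Real.pi * I)).re = σ.re := by simp
        show (σ + ((-(m : ℤ) : ℤ) : ℂ) * (2 * Real.pi * I)).re < L
        rw [this]; exact hσ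
      have h2 := hnat m _ h1
      rw [← h2]
      push_cast
      ring_nf
  -- compact rectangle
  let K : Set ℂ := Icc (L - 2) (L - 1) ×ℂ Icc 0 (2 * Real.pi)
  have hK : IsCompact K := isCompact_Icc.reProdIm isCompact_Icc
  have hKHP : K ⊆ HP L := by
    intro z hz
    have := hz.1.2
    show z.re < L
    linarith
  have hZ : {z | z ∈ K ∧ T z = b}.Finite := by
    by_contra hinf
    have hinf' : {z | z ∈ K ∧ T z = b}.Infinite := hinf
    obtain ⟨x, hx, hacc⟩ := hinf'.exists_accPt_of_subset_isCompact hK (fun z hz => hz.1)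
    have hfr : ∃ᶠ z in 𝓝[≠] x, T z = b := by
      have := accPt_iff_frequently_nhdsNE.mp hacc
      exact this.mono fun z hz => hz.2
    have heq := han.eqOn_of_preconnected_of_frequently_eq (g := fun _ => b)
      analyticOnNhd_const hpre (hKHP hx) hfr
    exact hTσ₀ (heq hσ₀)
  have hS : (Complex.re '' {z | z ∈ K ∧ T z = b}).Finite := hZ.image _
  -- choose a point
  have hU : IsOpen (Ioo (L - 2) (L - 1) \ (Complex.re '' {z | z ∈ K ∧ T z = b})) :=
    isOpen_Ioo.sdiff hS.isClosed
  have hne' : (Ioo (L - 2) (L - 1) \ (Complex.re '' {z | z ∈ K ∧ T z = b})).Nonempty := by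
    have : (Ioo (L - 2) (L - 1)).Infinite := Ioo_infinite (by linarith)
    exact (this.sdiff hS).nonempty
  obtain ⟨p, hp⟩ := hne'
  obtain ⟨ε, hε, hball⟩ := Metric.isOpen_iff.mp hU p hp
  refine ⟨p, p + ε, by linarith, ?_, ?_⟩
  · by_contra hcon
    push Not at hcon
    have h1 : p < L - 1 := hp.1.2
    have h2 : p + 1 < p + ε := by linarith
    have h3 : (L - 1) ∈ ball p ε := by
      rw [Real.ball_eq_Ioo]
      constructor <;> linarith
    exact absurd (hball h3).1.2 (lt_irrefl _)
  · intro σ h1 h2 hTσ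
    have h3 : σ.re ∈ ball p ε := by
      rw [Real.ball_eq_Ioo]
      constructor <;> linarith
    have h4 := hball h3
    have hσHP : σ ∈ HP L := by
      have := h4.1.2
      show σ.re < L
      linarith
    let n : ℤ := ⌊σ.im / (2 * Real.pi)⌋
    apply h4.2
    refine ⟨σ + ((-n : ℤ) : ℂ) * (2 * Real.pi * I), ⟨⟨?_, ?_⟩, ?_⟩, ?_⟩
    · have : (σ + ((-n : ℤ) : ℂ) * (2 * Real.pi * I)).re = σ.re := by simp
      show (σ + ((-n : ℤ) : ℂ) * (2 * Real.pi * I)).re ∈ Icc (L - 2) (L - 1)
      rw [this]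
      exact ⟨h4.1.1.le, h4.1.2.le⟩
    · have him : (σ + ((-n : ℤ) : ℂ) * (2 * Real.pi * I)).im = σ.im - n * (2 * Real.pi) := by
        simp
        ring
      show (σ + ((-n : ℤ) : ℂ) * (2 * Real.pi * I)).im ∈ Icc 0 (2 * Real.pi)
      rw [him]
      have hf1 := Int.floor_le (σ.im / (2 * Real.pi))
      have hf2 := Int.lt_floor_add_one (σ.im / (2 * Real.pi))
      rw [le_div_iff₀ hpi] at hf1
      rw [div_lt_iff₀ hpi] at hf2
      constructor
      · show 0 ≤ σ.im - (⌊σ.im / (2 * Real.pi)⌋ : ℝ) * (2 * Real.pi)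
        linarith
      · show σ.im - (⌊σ.im / (2 * Real.pi)⌋ : ℝ) * (2 * Real.pi) ≤ _
        linarith
    · exact (hint (-n) σ hσHP).mpr hTσ
    · simp

end Pool.Agent.E8helper63.SQ
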